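import Pool.Agent.Lib.MP_4c536a_lc.BGU.Fin
import Pool.Agent.Lib.MP_4c536a_lc.BGU.Dlb
import Pool.Agent.Lib.MP_4c536a_lc.BGU.Cor
import Pool.Agent.Lib.MP_4c536a_lc.BGU.Lsu
import Pool.Agent.Lib.MP_4c536a_lc.BGU.Dgu
import Pool.Agent.Lib.MP_4c536a_lc.BGU.Tre
import Pool.Agent.Lib.MP_4c536a_lc.BGU.Scn
import Pool.Agent.Lib.MP_4c536a_lc.BGU.Ptb
import Pool.Agent.Lib.MP_4c536a_lc.BGU.Cod
import Pool.Agent.Lib.MP_4c536a_lc.BGU.Snd
import Pool.Agent.Lib.MP_4c536a_lc.BGU.Cmp
import Pool.Agent.Lib.MP_4c536a_lc.BGU.Str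
import Pool.Agent.Lib.MP_4c536a_lc.BGU.Ord
import Pool.Agent.Lib.MP_4c536a_lc.BGU.Siz
import Pool.Agent.Lib.MP_4c536a_lc.BGD.Una
import Pool.Agent.Lib.MP_4c536a_lc.BG.Evg
import Pool.Agent.Lib.MP_2eed13_lc.LCA.H62.Assemble

/-!
# MP_4c536a_lc: linearly many guessed bits do not suffice

The definitions are in `Pool/Agent/Lib/MP_4c536a_lc/BGD/Base.lean` (linear bounded automata,
pictures, frontiers) and `Pool/Agent/Lib/MP_4c536a_lc/BGU/Base.lean` (guessed bits).
-/

set_option autoImplicit false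

namespace Pool.Agent.Results.MP_4c536a_lc.LinearGuessing

open Pool.Agent.Lib.MP_4c536a_lc
open Pool.Agent.Lib.MP_4c536a_lc.BGD
open Pool.Agent.Lib.MP_4c536a_lc.BGU (bits)

/-- For every `k` there is a language over a one-letter alphabet, accepted by a deterministic linear
bounded automaton, which is not the language `π(fr(L(Θ)))` of any finite alphabet `Γ`, set `Θ` of
tiles and projection `π` such that every long word `w` of the language is the projected frontier of
a picture of `L(Θ)` that has, seen from one of its corners, at most `k * |w|` guessed bits. -/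
theorem result (k : ℕ) :
    ∃ L : Set (List Unit), IsDCS L ∧ [] ∉ L ∧
      ∀ (Γ : Type) [Finite Γ] (Θ : Set (Tile Γ)) (π : Γ → Unit) (N : ℕ),
        (∀ w ∈ L, N ≤ w.length → ∃ (m n : ℕ) (hm : 0 < m) (hn : 0 < n) (p : Pic Γ m n)
          (z : Bool × Bool), InLocal Θ p ∧ w = (frontier hm hn p).map π ∧
            bits z Θ p ≤ k * w.length) → bgrid Θ π ≠ L :=
  BGU.fin_det BGU.dlb_proof BGD.una_proof BGU.cor_proof BGU.lsu_proof
    (BGU.dgu_proof (BGU.tre_proof BGU.scn_proof) BGU.ptb_proof BGU.cod_proof BGU.snd_proof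
      BGU.bey_proof (BGU.cmp_proof BGU.str_proof BGU.ord_proof) BGU.siz_proof BG.evalG)
    Pool.Agent.Lib.MP_2eed13_lc.LCA.H62.machine_all k

end Pool.Agent.Results.MP_4c536a_lc.LinearGuessing
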